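import Pool.Agent.H970Z.BS.Defs
import Pool.Agent.H970Z.BS.Perm

namespace Pool.Agent.Results.MP_b374f8_co.AnswerYes

open Pool.Agent.H970Z.BS

/-- The Baxter-Shattuck conjecture: for every `n ≥ 1` the permutations of `[n]` avoiding the
vincular pattern 23-1-4 are counted by the powered Catalan number `p n`. -/
theorem result (n : ℕ) (hn : 1 ≤ n) :
    Nat.card {π : Equiv.Perm (Fin n) // ¬ Contains π} = poweredCatalan n :=
  main n hn

end Pool.Agent.Results.MP_b374f8_co.AnswerYes
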